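import Mathlib

/-!
# Braid varieties of Steinberg type for `SL_2` and the curious Lefschetz property: definitions
-/

set_option autoImplicit false

namespace Pool.Agent.N177.CL

open scoped LinearAlgebra.Projectivization MatrixGroups

/-! ### The varieties -/

/-- The flag variety of `SL_2`: a Borel subgroup is the stabilizer of a line of the plane. -/
abbrev Flag (E : Type) [Field E] : Type := ℙ E (Fin 2 → E)

/-- `u` is a unipotent element of `SL_2(E)`. -/
def IsUnipotent {E : Type} [Field E] (u : SL(2, E)) : Prop :=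
  IsNilpotent ((u : Matrix (Fin 2) (Fin 2) E) - 1)

/-- `(B_0, ..., B_n)` is a point of `O(σ^n)`: consecutive Borel subgroups are in the relative
position `s`, that is, they are different; `σ` is the generator of the positive braid monoid of the
Weyl group `{1, s}` of `SL_2`. -/
def IsGallery {P : Type} {n : ℕ} (B : Fin (n + 1) → P) : Prop :=
  ∀ i : Fin n, B i.castSucc ≠ B i.succ

/-- The points over the field `E` of the variety `𝒰(σ^n) = O(σ^n) ×_{ℬ × ℬ} (𝒰 × ℬ)`: the unipotent
`u` and the `(B_0, ..., B_n)` in `O(σ^n)` with `B_n = u B_0 u⁻¹`. -/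
def UPoints (n : ℕ) (E : Type) [Field E] : Type :=
  {p : SL(2, E) × (Fin (n + 1) → Flag E) //
    IsUnipotent p.1 ∧ IsGallery p.2 ∧ p.2 (Fin.last n) = p.1 • p.2 0}

/-- The points over the field `E` of the variety `𝒵(σ^n) = 𝒰(1) ×_𝒰 𝒰(σ^n)`: a point `(u, B)` of the
Springer resolution `𝒰(1)` (that is, `u B u⁻¹ = B`) and a point `(u, B_0, ..., B_n)` of `𝒰(σ^n)`. -/
def ZPoints (n : ℕ) (E : Type) [Field E] : Type :=
  {p : Flag E × SL(2, E) × (Fin (n + 1) → Flag E) //
    p.2.1 • p.1 = p.1 ∧ IsUnipotent p.2.1 ∧ IsGallery p.2.2 ∧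
      p.2.2 (Fin.last n) = p.2.1 • p.2.2 0}

/-! ### Cohomology with compact supports -/

/-- `α` is a `q`-Weil number of weight `w`: an algebraic number all of whose complex conjugates have
absolute value `q ^ (w / 2)`. -/
def IsWeilNumber {Ω : Type} [Field Ω] [CharZero Ω] (q : ℕ) (w : ℤ) (α : Ω) : Prop :=
  IsAlgebraic ℚ α ∧
    ∀ z : ℂ, Polynomial.aeval z (minpoly ℚ α) = 0 → ‖z‖ = (q : ℝ) ^ ((w : ℝ) / 2)

/-- The data of finite-dimensional spaces `H^i` over `Ω` with endomorphisms `F` (Frobenius). -/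
structure FrobeniusModules (Ω : Type) [Field Ω] where
  /-- the space `H^i` -/
  H : ℕ → Type
  [addCommGroup : ∀ i, AddCommGroup (H i)]
  [module : ∀ i, Module Ω (H i)]
  [finite : ∀ i, Module.Finite Ω (H i)]
  /-- the Frobenius endomorphism of `H^i` -/
  F : ∀ i, Module.End Ω (H i)

attribute [instance] FrobeniusModules.addCommGroup FrobeniusModules.module FrobeniusModules.finite

/-- `C` has the basic properties of the cohomology with compact supports
`H^i_c(X ⊗ \bar 𝔽, \bar ℚ_ℓ)` of a variety `X` over the finite field `𝔽`, where `X E` denotes the set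
of points of `X` over the finite extension `E` of `𝔽`: it vanishes in large degrees, the trace
formula of Grothendieck and Lefschetz holds, and (Deligne) the eigenvalues of the Frobenius on `H^i`
are Weil numbers of integral weights `w ≤ i`. -/
structure IsCompactCohomology (𝔽 : Type) [Field 𝔽] [Finite 𝔽] (X : (E : Type) → [Field E] → Type)
    {Ω : Type} [Field Ω] [CharZero Ω] (C : FrobeniusModules Ω) : Prop where
  bounded : ∃ m : ℕ, ∀ i ≥ m, Subsingleton (C.H i)
  trace_formula : ∀ (m : ℕ), (∀ i ≥ m, Subsingleton (C.H i)) →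
    ∀ (E : Type) [Field E] [Finite E] [Algebra 𝔽 E],
      (Nat.card (X E) : Ω) = ∑ i ∈ Finset.range m,
        (-1) ^ i * LinearMap.trace Ω (C.H i) (C.F i ^ Module.finrank 𝔽 E)
  weights : ∀ (i : ℕ) (α : Ω), (C.F i).HasEigenvalue α →
    ∃ w : ℤ, w ≤ i ∧ IsWeilNumber (Nat.card 𝔽) w α

/-- The graded piece `gr^w_m H^i` of Frobenius weight `m`: the sum of the generalized eigenspaces of
the Frobenius on `H^i` for the eigenvalues of weight `m`. -/
noncomputable def FrobeniusModules.gr {Ω : Type} [Field Ω] [CharZero Ω] (C : FrobeniusModules Ω)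
    (q : ℕ) (m : ℤ) (i : ℕ) : Submodule Ω (C.H i) :=
  ⨆ (α : Ω) (_ : IsWeilNumber q m α), (C.F i).maxGenEigenspace α

/-- The `k`-th power of an operator `L` of degree `2`. -/
def FrobeniusModules.pow {Ω : Type} [Field Ω] (C : FrobeniusModules Ω)
    (L : ∀ i, C.H i →ₗ[Ω] C.H (i + 2)) : ∀ (k i : ℕ), C.H i →ₗ[Ω] C.H (i + 2 * k)
  | 0, _ => LinearMap.id
  | k + 1, i => L (i + 2 * k) ∘ₗ C.pow L k i

/-- The curious Lefschetz property for a variety of dimension `d`: there is an operator `L` of degree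
two (for example the cup product with a class `ω` of degree two) such that `L^k` induces an
isomorphism `gr^w_(d - 2 k) H^i ⟶ gr^w_(d + 2 k) H^(i + 2 k)` for all `i` and all `k ≥ 0`. -/
def FrobeniusModules.CuriousLefschetz {Ω : Type} [Field Ω] [CharZero Ω] (C : FrobeniusModules Ω)
    (q d : ℕ) : Prop :=
  ∃ L : ∀ i, C.H i →ₗ[Ω] C.H (i + 2), ∀ i k : ℕ,
    Set.BijOn (C.pow L k i) (C.gr q ((d : ℤ) - 2 * k) i) (C.gr q ((d : ℤ) + 2 * k) (i + 2 * k))

end Pool.Agent.N177.CL
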