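import Pool.Agent.N177.CL.Main

/-!
# Sanity check: graded Frobenius modules with the properties exist
-/

set_option autoImplicit false

namespace Pool.Agent.N177.CL

open Module

/-- Frobenius modules with `F = c i` on a space of dimension `k i` in degree `i`. -/
def scalarModules (Ω : Type) [Field Ω] (k : ℕ → ℕ) (c : ℕ → Ω) : FrobeniusModules Ω where
  H i := Fin (k i) → Ω
  F i := c i • LinearMap.id

theorem scalar_trace {Ω V : Type} [Field Ω] [AddCommGroup V] [Module Ω V] [FiniteDimensional Ω V]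
    (c : Ω) (r : ℕ) : LinearMap.trace Ω V ((c • (LinearMap.id : Module.End Ω V)) ^ r) =
      c ^ r * finrank Ω V := by
  have h : (c • (LinearMap.id : Module.End Ω V)) ^ r = c ^ r • (LinearMap.id : Module.End Ω V) := by
    change (c • (1 : Module.End Ω V)) ^ r = c ^ r • (1 : Module.End Ω V)
    rw [smul_pow, one_pow]
  rw [h, map_smul, LinearMap.trace_id, smul_eq_mul]

theorem scalarModules_trace {Ω : Type} [Field Ω] (k : ℕ → ℕ) (c : ℕ → Ω) (i r : ℕ) :
    LinearMap.trace Ω ((scalarModules Ω k c).H i) ((scalarModules Ω k c).F i ^ r) =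
      c i ^ r * (k i : Ω) := by
  have h := scalar_trace (Ω := Ω) (V := Fin (k i) → Ω) (c i) r
  rw [Module.finrank_fin_fun] at h
  exact h

theorem exists_cohomology (𝔽 : Type) [Field 𝔽] [Finite 𝔽] (Ω : Type) [Field Ω] [CharZero Ω]
    {n : ℕ} (hn : Even n) : ∃ C : FrobeniusModules Ω, IsCompactCohomology 𝔽 (UPoints n) C := by
  classical
  refine ⟨scalarModules Ω (fun i => if i = 2 ∨ i = 2 * n + 4 then 1 else 0)
    (fun i => (Nat.card 𝔽 : Ω) ^ (i / 2)), ?_, ?_, ?_⟩
  · refine ⟨2 * n + 5, fun i hi => ?_⟩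
    have : (if i = 2 ∨ i = 2 * n + 4 then 1 else 0) = 0 := if_neg (by omega)
    change Subsingleton (Fin (if i = 2 ∨ i = 2 * n + 4 then 1 else 0) → Ω)
    rw [this]
    infer_instance
  · intro m hm E _ _ _
    have hm4 : 2 * n + 4 < m := by
      by_contra h
      have h1 := hm (2 * n + 4) (by omega)
      change Subsingleton (Fin (if 2 * n + 4 = 2 ∨ 2 * n + 4 = 2 * n + 4 then 1 else 0) → Ω) at h1
      rw [if_pos (Or.inr rfl)] at h1
      have h2 := h1.elim (fun _ => 0) (fun _ => 1)
      have h3 := congrFun h2 0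
      exact zero_ne_one h3
    have hcard : Nat.card E = Nat.card 𝔽 ^ finrank 𝔽 E :=
      Module.natCard_eq_pow_finrank (K := 𝔽) (V := E)
    have h1 : (Nat.card (UPoints n E) : Ω) = (Nat.card E : Ω) ^ (n + 2) + (Nat.card E : Ω) := by
      have h := card_UPoints (E := E) n
      obtain ⟨l, rfl⟩ := hn
      have e : ((-1 : ℤ)) ^ (l + l) = 1 := by rw [← two_mul, pow_mul]; simp
      rw [e, one_mul] at h
      exact_mod_cast congrArg (Int.cast : ℤ → Ω) h
    have h2 : ∀ i ∈ Finset.range m, (-1) ^ i * LinearMap.trace Ω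
        ((scalarModules Ω (fun i => if i = 2 ∨ i = 2 * n + 4 then 1 else 0)
          (fun i => (Nat.card 𝔽 : Ω) ^ (i / 2))).H i)
        ((scalarModules Ω (fun i => if i = 2 ∨ i = 2 * n + 4 then 1 else 0)
          (fun i => (Nat.card 𝔽 : Ω) ^ (i / 2))).F i ^ finrank 𝔽 E) =
        if i = 2 ∨ i = 2 * n + 4 then (-1) ^ i * (Nat.card E : Ω) ^ (i / 2) else 0 := by
      intro i _
      rw [scalarModules_trace]
      split_ifs
      · rw [hcard]
        push_cast
        rw [mul_one, ← pow_mul, ← pow_mul, mul_comm (i / 2)]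
      · simp
    rw [Finset.sum_congr rfl h2, ← Finset.sum_filter]
    have h5 : (Finset.range m).filter (fun i => i = 2 ∨ i = 2 * n + 4) = {2, 2 * n + 4} := by
      ext i
      simp only [Finset.mem_filter, Finset.mem_range, Finset.mem_insert, Finset.mem_singleton]
      constructor
      · exact fun h => h.2
      · intro h
        refine ⟨by omega, h⟩
    rw [h5, Finset.sum_pair (by omega), h1]
    have e1 : (2 * n + 4) / 2 = n + 2 := by omega
    have e2 : ((-1 : Ω)) ^ (2 * n + 4) = 1 := by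
      rw [show 2 * n + 4 = 2 * (n + 2) by ring, pow_mul]
      simp
    rw [e1, e2]
    norm_num
    ring
  · intro i α hα
    change Module.End.HasEigenvalue (((Nat.card 𝔽 : Ω) ^ (i / 2)) • LinearMap.id :
      Module.End Ω (Fin (if i = 2 ∨ i = 2 * n + 4 then 1 else 0) → Ω)) α at hα
    obtain ⟨x, hx⟩ := hα.exists_hasEigenvector
    have h1 := hx.apply_eq_smul
    have h2 := hx.2
    have h3 : (((Nat.card 𝔽 : Ω) ^ (i / 2)) - α) • x = 0 := by
      rw [sub_smul, ← h1]
      simp
    have h4 : α = (Nat.card 𝔽 : Ω) ^ (i / 2) := by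
      rcases smul_eq_zero.1 h3 with h | h
      · linear_combination -h
      · exact absurd h h2
    refine ⟨2 * ((i / 2 : ℕ) : ℤ), by omega, ?_⟩
    rw [h4]
    exact isWeilNumber_pow _

end Pool.Agent.N177.CL
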