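import Pool.Agent.N177.CL.Defs

/-!
# Counting galleries in a finite set
-/

set_option autoImplicit false

namespace Pool.Agent.N177.CL

/-- galleries of length `n` from `x` to `y` -/
def Gal (P : Type) (n : ℕ) (x y : P) : Type :=
  {B : Fin (n + 1) → P // IsGallery B ∧ B 0 = x ∧ B (Fin.last n) = y}

noncomputable def cnt (P : Type) (n : ℕ) (x y : P) : ℕ := Nat.card (Gal P n x y)

variable {P : Type}

theorem sigma_ext {n : ℕ} {x y : P} {p q : Σ z : {z : P // z ≠ y}, Gal P n x z.1}
    (h : p.2.1 = q.2.1) : p = q := by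
  obtain ⟨⟨z, hz⟩, ⟨B, h1, h2, h3⟩⟩ := p
  obtain ⟨⟨z', hz'⟩, ⟨B', h1', h2', h3'⟩⟩ := q
  have h4 : B (Fin.last n) = z := h3
  have h4' : B' (Fin.last n) = z' := h3'
  have h5 : B = B' := h
  subst h5
  cases h4
  cases h4'
  rfl

/-- the last step -/
def stepEquiv (n : ℕ) (x y : P) : Gal P (n + 1) x y ≃ Σ z : {z : P // z ≠ y}, Gal P n x z.1 where
  toFun B := ⟨⟨B.1 (Fin.last n).castSucc, by
      have := B.2.1 (Fin.last n)
      rw [Fin.succ_last, B.2.2.2] at this
      exact this⟩,
    ⟨fun i => B.1 i.castSucc, fun i => by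
      have := B.2.1 i.castSucc
      rwa [Fin.succ_castSucc] at this, B.2.2.1, rfl⟩⟩
  invFun p := ⟨Fin.snoc (α := fun _ => P) p.2.1 y, by
    refine ⟨fun i => ?_, ?_, ?_⟩
    · induction i using Fin.lastCases with
      | last =>
        rw [Fin.succ_last, Fin.snoc_last, Fin.snoc_castSucc, p.2.2.2.2]
        exact p.1.2
      | cast i =>
        rw [Fin.succ_castSucc, Fin.snoc_castSucc, Fin.snoc_castSucc]
        exact p.2.2.1 i
    · have : (0 : Fin (n + 2)) = (0 : Fin (n + 1)).castSucc := rfl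
      rw [this, Fin.snoc_castSucc]
      exact p.2.2.2.1
    · rw [Fin.snoc_last]⟩
  left_inv B := by
    apply Subtype.ext
    funext i
    induction i using Fin.lastCases with
    | last => simp only [Fin.snoc_last]; exact B.2.2.2.symm
    | cast i => simp only [Fin.snoc_castSucc]
  right_inv p := by
    apply sigma_ext
    funext i
    simp only [Fin.snoc_castSucc]

instance [Finite P] (n : ℕ) (x y : P) : Finite (Gal P n x y) := by
  unfold Gal; infer_instance

theorem cnt_zero_same (x : P) : cnt P 0 x x = 1 := by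
  unfold cnt
  rw [Nat.card_eq_one_iff_unique]
  refine ⟨⟨fun a b => ?_⟩, ⟨⟨fun _ => x, fun i => i.elim0, rfl, rfl⟩⟩⟩
  apply Subtype.ext
  funext i
  have : i = 0 := Fin.fin_one_eq_zero i
  rw [this]
  exact a.2.2.1.trans b.2.2.1.symm

theorem cnt_zero_diff {x y : P} (h : x ≠ y) : cnt P 0 x y = 0 := by
  unfold cnt
  rw [Nat.card_eq_zero]
  left
  exact ⟨fun a => h (a.2.2.1.symm.trans a.2.2.2)⟩

theorem cnt_succ [Fintype P] [DecidableEq P] (n : ℕ) (x y : P) :
    cnt P (n + 1) x y = ∑ z ∈ Finset.univ.filter (fun z => z ≠ y), cnt P n x z := by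
  classical
  unfold cnt
  rw [Nat.card_congr (stepEquiv n x y), Nat.card_sigma]
  exact Finset.sum_subtype (Finset.univ.filter (fun z => z ≠ y)) (by simp)
    (fun z => Nat.card (Gal P n x z)) |>.symm

/-- the numbers of closed and of open galleries -/
theorem cnt_formula [Fintype P] [DecidableEq P] (Q : ℕ) (hQ : Fintype.card P = Q + 1) (n : ℕ) :
    ∃ s t : ℤ, (∀ x : P, (cnt P n x x : ℤ) = s) ∧ (∀ x y : P, x ≠ y → (cnt P n x y : ℤ) = t) ∧
      s - t = (-1) ^ n ∧ ((Q : ℤ) + 1) * t = (Q : ℤ) ^ n - (-1) ^ n := by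
  induction n with
  | zero =>
    refine ⟨1, 0, fun x => by rw [cnt_zero_same]; rfl, fun x y h => by rw [cnt_zero_diff h]; rfl,
      by simp, by simp⟩
  | succ n ih =>
    obtain ⟨s, t, hs, ht, h1, h2⟩ := ih
    refine ⟨Q * t, s + (Q - 1) * t, fun x => ?_, fun x y hxy => ?_, ?_, ?_⟩
    · rw [cnt_succ]
      push_cast
      rw [Finset.sum_congr rfl (g := fun _ => t)]
      · rw [Finset.sum_const, Finset.filter_ne', Finset.card_erase_of_mem (Finset.mem_univ _),
          Finset.card_univ, hQ]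
        simp
      · intro z hz
        rw [Finset.mem_filter] at hz
        exact ht x z (Ne.symm hz.2)
    · rw [cnt_succ]
      push_cast
      rw [Finset.filter_ne', ← Finset.add_sum_erase _ _ (show x ∈ Finset.univ.erase y by simp [hxy]),
        hs, Finset.sum_congr rfl (g := fun _ => t)]
      · rw [Finset.sum_const, Finset.card_erase_of_mem (by simp [hxy]),
          Finset.card_erase_of_mem (Finset.mem_univ _), Finset.card_univ, hQ]
        have hQ1 : 1 ≤ Q := by
          have : 1 < Fintype.card P := Fintype.one_lt_card_iff.2 ⟨x, y, hxy⟩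
          omega
        obtain ⟨Q', rfl⟩ : ∃ Q', Q = Q' + 1 := ⟨Q - 1, by omega⟩
        simp
      · intro z hz
        rw [Finset.mem_erase] at hz
        exact ht x z (Ne.symm hz.1)
    · rw [pow_succ]
      linear_combination (-1 : ℤ) * h1
    · rw [pow_succ, pow_succ]
      linear_combination ((Q : ℤ) + 1) * h1 + (Q : ℤ) * h2

end Pool.Agent.N177.CL
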