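import Pool.Agent.N177.CL.Unip

/-!
# The numbers of points of `𝒰(σ^n)` and `𝒵(σ^n)` over finite fields
-/

set_option autoImplicit false

namespace Pool.Agent.N177.CL

open scoped LinearAlgebra.Projectivization MatrixGroups

variable {E : Type} [Field E]

noncomputable def uEquiv (n : ℕ) :
    UPoints n E ≃ Σ (u : Unip E) (x : Flag E), Gal (Flag E) n x (u.1 • x) where
  toFun p := ⟨⟨p.1.1, p.2.1⟩, p.1.2 0, ⟨p.1.2, p.2.2.1, rfl, p.2.2.2⟩⟩
  invFun t := ⟨(t.1.1, t.2.2.1), t.1.2, t.2.2.2.1, by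
    have h1 := t.2.2.2.2.1
    have h2 := t.2.2.2.2.2
    change t.2.2.1 (Fin.last n) = t.1.1 • t.2.2.1 0
    rw [h2, h1]⟩
  left_inv p := rfl
  right_inv t := by
    obtain ⟨u, x, B, h1, h2, h3⟩ := t
    subst h2
    rfl

noncomputable def zEquiv (n : ℕ) :
    ZPoints n E ≃ Σ (u : Unip E), {y : Flag E // u.1 • y = y} ×
      Σ x : Flag E, Gal (Flag E) n x (u.1 • x) where
  toFun p := ⟨⟨p.1.2.1, p.2.2.1⟩, ⟨p.1.1, p.2.1⟩, p.1.2.2 0, ⟨p.1.2.2, p.2.2.2.1, rfl, p.2.2.2.2⟩⟩
  invFun t := ⟨(t.2.1.1, t.1.1, t.2.2.2.1), t.2.1.2, t.1.2, t.2.2.2.2.1, by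
    have h1 := t.2.2.2.2.2.1
    have h2 := t.2.2.2.2.2.2
    change t.2.2.2.1 (Fin.last n) = t.1.1 • t.2.2.2.1 0
    rw [h2, h1]⟩
  left_inv p := rfl
  right_inv t := by
    obtain ⟨u, y, x, B, h1, h2, h3⟩ := t
    subst h2
    rfl

variable [Finite E]

instance : Finite (Flag E) := by
  haveI : Finite (Fin 2 → E) := inferInstance
  exact (Projectivization.finite_iff_of_finite (k := E) (V := Fin 2 → E)).2 inferInstance

instance : Finite (SL(2, E)) := Subtype.finite

/-- the number of the flags which are fixed by `u` -/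
noncomputable def fx (u : Unip E) : ℕ := Nat.card {y : Flag E // u.1 • y = y}

open Classical in
theorem fx_eq [Fintype (Flag E)] (u : Unip E) :
    (fx u : ℤ) = ∑ x : Flag E, if u.1 • x = x then (1 : ℤ) else 0 := by
  unfold fx
  rw [Finset.sum_boole, Nat.card_eq_fintype_card, Fintype.card_subtype]

open Classical in
theorem sum_fx [Fintype (Unip E)] : ∑ u : Unip E, (fx u : ℤ) = (Nat.card E + 1) * Nat.card E := by
  haveI : Fintype (Flag E) := Fintype.ofFinite _
  simp_rw [fx_eq]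
  rw [Finset.sum_comm]
  have h : ∀ x : Flag E, (∑ u : Unip E, if u.1 • x = x then (1 : ℤ) else 0) = Nat.card E := by
    intro x
    rw [Finset.sum_boole, ← card_stab x, Nat.card_eq_fintype_card, Fintype.card_subtype]
  rw [Finset.sum_congr rfl fun x _ => h x, Finset.sum_const, Finset.card_univ,
    ← Nat.card_eq_fintype_card, card_flag]
  push_cast
  rw [nsmul_eq_mul]
  push_cast
  ring

open Classical in
theorem sum_fx_sq [Fintype (Unip E)] :
    ∑ u : Unip E, (fx u : ℤ) * fx u = 2 * (Nat.card E + 1) * Nat.card E := by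
  haveI : Fintype (Flag E) := Fintype.ofFinite _
  have h0 : ∀ u : Unip E, (fx u : ℤ) * fx u =
      ∑ x : Flag E, ∑ y : Flag E, if u.1 • x = x ∧ u.1 • y = y then (1 : ℤ) else 0 := by
    intro u
    rw [fx_eq, Finset.sum_mul_sum]
    refine Finset.sum_congr rfl fun x _ => Finset.sum_congr rfl fun y _ => ?_
    by_cases h1 : u.1 • x = x <;> by_cases h2 : u.1 • y = y <;> simp [h1, h2]
  rw [Finset.sum_congr rfl fun u _ => h0 u, Finset.sum_comm]
  have h : ∀ x : Flag E, (∑ u : Unip E, ∑ y : Flag E,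
      if u.1 • x = x ∧ u.1 • y = y then (1 : ℤ) else 0) = 2 * Nat.card E := by
    intro x
    rw [Finset.sum_comm, ← Finset.add_sum_erase _ _ (Finset.mem_univ x)]
    have h1 : (∑ u : Unip E, if u.1 • x = x ∧ u.1 • x = x then (1 : ℤ) else 0) = Nat.card E := by
      rw [Finset.sum_boole, ← card_stab x, Nat.card_eq_fintype_card, Fintype.card_subtype]
      simp only [and_self]
    have h2 : ∀ y ∈ Finset.univ.erase x,
        (∑ u : Unip E, if u.1 • x = x ∧ u.1 • y = y then (1 : ℤ) else 0) = 1 := by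
      intro y hy
      rw [Finset.mem_erase] at hy
      have := card_stab_two (E := E) (Ne.symm hy.1)
      rw [Finset.sum_boole, ← Fintype.card_subtype, ← Nat.card_eq_fintype_card, this]
      rfl
    rw [h1, Finset.sum_congr rfl h2, Finset.sum_const, Finset.card_erase_of_mem (Finset.mem_univ x),
      Finset.card_univ, ← Nat.card_eq_fintype_card, card_flag]
    simp
    ring
  rw [Finset.sum_congr rfl fun x _ => h x, Finset.sum_const, Finset.card_univ,
    ← Nat.card_eq_fintype_card, card_flag, nsmul_eq_mul]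
  push_cast
  ring

open Classical in
/-- the number of the galleries from `x` to `u x` -/
theorem gal_sum [Fintype (Flag E)] (n : ℕ) {s t : ℤ}
    (hs : ∀ x : Flag E, (cnt (Flag E) n x x : ℤ) = s)
    (ht : ∀ x y : Flag E, x ≠ y → (cnt (Flag E) n x y : ℤ) = t) (u : Unip E) :
    ((∑ x : Flag E, cnt (Flag E) n x (u.1 • x) : ℕ) : ℤ) =
      (s - t) * fx u + (Nat.card E + 1) * t := by
  have h : ∀ x : Flag E, (cnt (Flag E) n x (u.1 • x) : ℤ) =
      (s - t) * (if u.1 • x = x then (1 : ℤ) else 0) + t := by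
    intro x
    by_cases hx : u.1 • x = x
    · rw [if_pos hx, hx, hs]
      ring
    · rw [if_neg hx, ht _ _ (Ne.symm hx)]
      ring
  push_cast
  rw [Finset.sum_congr rfl fun x _ => h x, Finset.sum_add_distrib, ← Finset.mul_sum, ← fx_eq,
    Finset.sum_const, Finset.card_univ, ← Nat.card_eq_fintype_card, card_flag, nsmul_eq_mul]
  push_cast
  ring

/-- `#𝒰(σ^n)(𝔽_Q) = Q^(n + 2) + (-1)^n Q` -/
theorem card_UPoints (n : ℕ) :
    (Nat.card (UPoints n E) : ℤ) = (Nat.card E : ℤ) ^ (n + 2) + (-1) ^ n * Nat.card E := by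
  classical
  haveI : Fintype (Flag E) := Fintype.ofFinite _
  haveI : Fintype (Unip E) := Fintype.ofFinite _
  obtain ⟨s, t, hs, ht, h1, h2⟩ := cnt_formula (P := Flag E) (Nat.card E)
    (by rw [← Nat.card_eq_fintype_card, card_flag]) n
  have h3 : (Nat.card (UPoints n E) : ℤ) =
      ∑ u : Unip E, ((s - t) * fx u + (Nat.card E + 1) * t) := by
    rw [Nat.card_congr (uEquiv n), Nat.card_sigma]
    push_cast
    refine Finset.sum_congr rfl fun u _ => ?_
    rw [Nat.card_sigma, ← gal_sum n hs ht u]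
    rfl
  rw [h3, Finset.sum_add_distrib, ← Finset.mul_sum, sum_fx, Finset.sum_const, Finset.card_univ,
    ← Nat.card_eq_fintype_card, card_unip, h1, nsmul_eq_mul, h2]
  push_cast
  ring

/-- `#𝒵(σ^n)(𝔽_Q) = Q (Q + 1) (Q^n + (-1)^n)` -/
theorem card_ZPoints (n : ℕ) :
    (Nat.card (ZPoints n E) : ℤ) =
      Nat.card E * (Nat.card E + 1) * ((Nat.card E : ℤ) ^ n + (-1) ^ n) := by
  classical
  haveI : Fintype (Flag E) := Fintype.ofFinite _
  haveI : Fintype (Unip E) := Fintype.ofFinite _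
  obtain ⟨s, t, hs, ht, h1, h2⟩ := cnt_formula (P := Flag E) (Nat.card E)
    (by rw [← Nat.card_eq_fintype_card, card_flag]) n
  have h3 : (Nat.card (ZPoints n E) : ℤ) =
      ∑ u : Unip E, ((s - t) * (fx u * fx u) + ((Nat.card E + 1) * t) * fx u) := by
    rw [Nat.card_congr (zEquiv n), Nat.card_sigma]
    push_cast
    refine Finset.sum_congr rfl fun u _ => ?_
    rw [Nat.card_prod, Nat.card_sigma]
    have := gal_sum n hs ht u
    change (Nat.card {y : Flag E // u.1 • y = y} : ℤ) *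
      ((∑ x : Flag E, cnt (Flag E) n x (u.1 • x) : ℕ) : ℤ) = _
    rw [this]
    change (fx u : ℤ) * _ = _
    ring
  rw [h3, Finset.sum_add_distrib, ← Finset.mul_sum, ← Finset.mul_sum, sum_fx, sum_fx_sq, h1, h2]
  ring

end Pool.Agent.N177.CL
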