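import Pool.Agent.N177.CL.Virt
import Pool.Agent.N177.CL.Points

/-!
# The curious Lefschetz property fails
-/

set_option autoImplicit false

namespace Pool.Agent.N177.CL

open Module

section

variable {𝔽 : Type} [Field 𝔽] [Finite 𝔽] {X : (E : Type) → [Field E] → Type}
  {Ω : Type} [Field Ω] [CharZero Ω] [IsAlgClosed Ω] {C : FrobeniusModules Ω}

/-- the virtual multiplicity of an eigenvalue -/
noncomputable def vm (C : FrobeniusModules Ω) (m : ℕ) (α : Ω) : ℤ :=
  ∑ i ∈ Finset.range m, (-1) ^ i * (finrank Ω ((C.F i).maxGenEigenspace α) : ℤ)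

/-- the virtual dimension of a weight -/
noncomputable def vw (C : FrobeniusModules Ω) (m q : ℕ) (w : ℤ) : ℤ :=
  ∑ i ∈ Finset.range m, (-1) ^ i * (finrank Ω (C.gr q w i) : ℤ)

omit [CharZero Ω] [IsAlgClosed Ω] in
theorem finite_eig (C : FrobeniusModules Ω) (m : ℕ) :
    ∃ S : Finset Ω, ∀ i < m, ∀ α, (C.F i).HasEigenvalue α → α ∈ S := by
  classical
  have h : ∀ i, {α | (C.F i).HasEigenvalue α}.Finite := fun i => by
    exact Module.End.finite_hasEigenvalue (C.F i)
  refine ⟨(Finset.range m).biUnion fun i => (h i).toFinset, fun i hi α hα => ?_⟩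
  rw [Finset.mem_biUnion]
  exact ⟨i, Finset.mem_range.2 hi, by simpa using hα⟩

omit [CharZero Ω] [IsAlgClosed Ω] in
theorem genEig_eq_bot {i : ℕ} {α : Ω} (h : ¬ (C.F i).HasEigenvalue α) :
    (C.F i).maxGenEigenspace α = ⊥ := by
  by_contra h2
  exact h ((Module.End.hasUnifEigenvalue_iff_hasUnifEigenvalue_one (by simp)).1 h2)

open Classical in
omit [IsAlgClosed Ω] in
theorem vw_eq (q m : ℕ) (w : ℤ) (S : Finset Ω)
    (hS : ∀ i < m, ∀ α, (C.F i).HasEigenvalue α → α ∈ S) :
    vw C m q w = ∑ α ∈ S.filter (fun α => IsWeilNumber q w α), vm C m α := by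
  unfold vw vm
  rw [Finset.sum_comm]
  refine Finset.sum_congr rfl fun i hi => ?_
  rw [← Finset.mul_sum]
  congr 1
  have h1 : C.gr q w i = ⨆ α ∈ S.filter (fun α => IsWeilNumber q w α),
      (C.F i).maxGenEigenspace α := by
    unfold FrobeniusModules.gr
    apply le_antisymm
    · refine iSup₂_le fun α hα => ?_
      by_cases h : (C.F i).HasEigenvalue α
      · exact le_iSup₂_of_le α (Finset.mem_filter.2 ⟨hS i (Finset.mem_range.1 hi) α h, hα⟩) le_rfl
      · rw [genEig_eq_bot h]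
        exact bot_le
    · refine iSup₂_le fun α hα => ?_
      exact le_iSup₂_of_le α (Finset.mem_filter.1 hα).2 le_rfl
  rw [h1, finrank_biSup _ (C.F i).independent_maxGenEigenspace]
  push_cast
  rfl

open Classical in
/-- The trace formula determines the virtual multiplicities. -/
theorem vm_eq (hC : IsCompactCohomology 𝔽 X C) {m : ℕ} (hm : ∀ i ≥ m, Subsingleton (C.H i))
    (T : Finset Ω) (c : Ω → ℤ) (hT0 : (0 : Ω) ∉ T)
    (hT : ∀ (E : Type) [Field E] [Finite E], ∀ r : ℕ, Nat.card E = Nat.card 𝔽 ^ r →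
      (Nat.card (X E) : Ω) = ∑ α ∈ T, (c α : Ω) * α ^ r) (α : Ω) (hα : α ≠ 0) :
    vm C m α = if α ∈ T then c α else 0 := by
  obtain ⟨S, hS⟩ := finite_eig C m
  obtain ⟨p, hp⟩ := CharP.exists 𝔽
  haveI : Fact p.Prime := ⟨CharP.char_is_prime 𝔽 p⟩
  have key : ∀ r : ℕ, 0 < r →
      ∑ β ∈ ((S ∪ T) ∪ {α}).erase 0, ((vm C m β : Ω) - if β ∈ T then (c β : Ω) else 0) * β ^ r = 0 := by
    intro r hr
    haveI : NeZero r := ⟨hr.ne'⟩
    have hcard := FiniteField.natCard_extension 𝔽 p r
    have h1 := hT (FiniteField.Extension 𝔽 p r) r hcard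
    have h2 := hC.trace_formula m hm (FiniteField.Extension 𝔽 p r)
    have h3 : finrank 𝔽 (FiniteField.Extension 𝔽 p r) = r := by
      have h4 := Module.natCard_eq_pow_finrank (K := 𝔽) (V := FiniteField.Extension 𝔽 p r)
      rw [hcard] at h4
      exact (Nat.pow_right_injective (Finite.one_lt_card (α := 𝔽)) h4).symm
    rw [h3, h1] at h2
    have h5 : ∀ i ∈ Finset.range m, (-1) ^ i * LinearMap.trace Ω (C.H i) (C.F i ^ r) =
        ∑ β ∈ (S ∪ T) ∪ {α}, (-1) ^ i * (finrank Ω ((C.F i).maxGenEigenspace β) : Ω) * β ^ r := by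
      intro i hi
      rw [trace_pow_eq (C.F i) ((S ∪ T) ∪ {α}) (fun μ hμ => by
        have := hS i (Finset.mem_range.1 hi) μ hμ
        simp [this]) r, Finset.mul_sum]
      refine Finset.sum_congr rfl fun β _ => ?_
      ring
    rw [Finset.sum_congr rfl h5, Finset.sum_comm] at h2
    have h6 : ∑ β ∈ T, (c β : Ω) * β ^ r =
        ∑ β ∈ (S ∪ T) ∪ {α}, (if β ∈ T then (c β : Ω) else 0) * β ^ r := by
      have : T = ((S ∪ T) ∪ {α}).filter (fun β => β ∈ T) := by
        ext β
        simp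
        tauto
      conv_lhs => rw [this]
      rw [Finset.sum_filter]
      refine Finset.sum_congr rfl fun β _ => ?_
      split_ifs <;> simp
    rw [h6] at h2
    have h7 : ∑ β ∈ (S ∪ T) ∪ {α}, ((vm C m β : Ω) - if β ∈ T then (c β : Ω) else 0) * β ^ r = 0 := by
      simp_rw [sub_mul]
      rw [Finset.sum_sub_distrib, h2, sub_eq_zero]
      refine Finset.sum_congr rfl fun β _ => ?_
      unfold vm
      push_cast
      rw [Finset.sum_mul]
    refine Eq.trans (Finset.sum_subset (Finset.erase_subset _ _) ?_) h7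
    intro β hβ hβ'
    have : β = 0 := by
      by_contra h
      exact hβ' (Finset.mem_erase.2 ⟨h, hβ⟩)
    rw [this, zero_pow hr.ne', mul_zero]
  have h := eq_zero_of_pow _ (Finset.notMem_erase 0 _)
    (fun β => (vm C m β : Ω) - if β ∈ T then (c β : Ω) else 0) key α
    (Finset.mem_erase.2 ⟨hα, by simp⟩)
  have h' : (vm C m α : Ω) = if α ∈ T then (c α : Ω) else 0 := sub_eq_zero.1 h
  split_ifs with hT'
  · rw [if_pos hT'] at h'
    exact_mod_cast h'
  · rw [if_neg hT'] at h'
    exact_mod_cast h'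

theorem vw_formula (hC : IsCompactCohomology 𝔽 X C) {m : ℕ} (hm : ∀ i ≥ m, Subsingleton (C.H i))
    (T : Finset ℕ) (c : ℕ → ℤ)
    (hT : ∀ (E : Type) [Field E] [Finite E],
      (Nat.card (X E) : ℤ) = ∑ k ∈ T, c k * (Nat.card E : ℤ) ^ k) (j : ℤ) :
    vw C m (Nat.card 𝔽) (2 * j) = ∑ k ∈ T.filter (fun k : ℕ => (k : ℤ) = j), c k := by
  classical
  set q := Nat.card 𝔽 with hq
  have hq1 : 1 < q := Finite.one_lt_card
  have hinj : Function.Injective (fun k : ℕ => (q : Ω) ^ k) := by
    intro a b hab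
    have : ((q ^ a : ℕ) : Ω) = ((q ^ b : ℕ) : Ω) := by push_cast; exact hab
    exact Nat.pow_right_injective hq1 (Nat.cast_injective this)
  obtain ⟨S, hS⟩ := finite_eig C m
  have h0 : (q : Ω) ≠ 0 := Nat.cast_ne_zero.2 (by omega)
  -- the coefficient function
  let T' : Finset Ω := T.image (fun k => (q : Ω) ^ k)
  let c' : Ω → ℤ := fun α => ∑ k ∈ T.filter (fun k => (q : Ω) ^ k = α), c k
  have hc' : ∀ k ∈ T, c' ((q : Ω) ^ k) = c k := by
    intro k hk
    have : T.filter (fun k' => (q : Ω) ^ k' = (q : Ω) ^ k) = {k} := by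
      ext k'
      simp only [Finset.mem_filter, Finset.mem_singleton]
      constructor
      · rintro ⟨_, h⟩
        exact hinj h
      · rintro rfl
        exact ⟨hk, rfl⟩
    change ∑ k' ∈ T.filter (fun k' => (q : Ω) ^ k' = (q : Ω) ^ k), c k' = c k
    rw [this, Finset.sum_singleton]
  have hvm := vm_eq hC hm T' c' (by
      intro h
      obtain ⟨k, _, hk⟩ := Finset.mem_image.1 h
      exact pow_ne_zero k h0 hk) (by
      intro E _ _ r hr
      have h1 := hT E
      have h2 : (Nat.card (X E) : Ω) = ∑ k ∈ T, (c k : Ω) * (Nat.card E : Ω) ^ k := by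
        have := congrArg (Int.cast : ℤ → Ω) h1
        push_cast at this
        exact this
      rw [h2, Finset.sum_image (fun a _ b _ h => hinj h)]
      refine Finset.sum_congr rfl fun k hk => ?_
      rw [hc' k hk, hr, ← hq]
      push_cast
      rw [← pow_mul, ← pow_mul, mul_comm r k])
  rw [vw_eq q (m) (2 * j) (S ∪ T') (fun i hi α hα => Finset.mem_union_left _ (hS i hi α hα))]
  have h1 : ∀ α ∈ (S ∪ T').filter (fun α => IsWeilNumber q (2 * j) α),
      vm C m α = if α ∈ T' then c' α else 0 := by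
    intro α hα
    exact hvm α ((Finset.mem_filter.1 hα).2.ne_zero (by omega))
  rw [Finset.sum_congr rfl h1, ← Finset.sum_filter]
  have h2 : ((S ∪ T').filter (fun α => IsWeilNumber q (2 * j) α)).filter (fun α => α ∈ T') =
      (T.filter (fun k : ℕ => (k : ℤ) = j)).image (fun k : ℕ => (q : Ω) ^ k) := by
    ext α
    simp only [Finset.mem_filter, Finset.mem_union, Finset.mem_image]
    constructor
    · rintro ⟨⟨_, hw⟩, hα⟩
      obtain ⟨k, hk, rfl⟩ := Finset.mem_image.1 hα
      refine ⟨k, ⟨hk, ?_⟩, rfl⟩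
      have := IsWeilNumber.unique hq1 (isWeilNumber_pow k) hw
      omega
    · rintro ⟨k, ⟨hk, rfl⟩, rfl⟩
      have : (q : Ω) ^ k ∈ T' := Finset.mem_image.2 ⟨k, hk, rfl⟩
      exact ⟨⟨Or.inr this, isWeilNumber_pow k⟩, this⟩
  rw [h2, Finset.sum_image (fun a _ b _ h => hinj h)]
  refine Finset.sum_congr rfl fun k hk => ?_
  exact hc' k (Finset.mem_filter.1 hk).1

/-- The numerical consequence of the curious Lefschetz property. -/
theorem vw_symm (hC : IsCompactCohomology 𝔽 X C) {d : ℕ}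
    (hL : C.CuriousLefschetz (Nat.card 𝔽) d) {m : ℕ} (hm : ∀ i ≥ m, Subsingleton (C.H i)) (k : ℕ) :
    vw C m (Nat.card 𝔽) (d - 2 * k) = vw C (m + 2 * k) (Nat.card 𝔽) (d + 2 * k) := by
  obtain ⟨L, hL⟩ := hL
  have h1 : ∀ i, finrank Ω (C.gr (Nat.card 𝔽) (d - 2 * k) i) =
      finrank Ω (C.gr (Nat.card 𝔽) (d + 2 * k) (i + 2 * k)) := by
    intro i
    have h := hL i k
    let f : C.gr (Nat.card 𝔽) (d - 2 * k) i →ₗ[Ω] C.gr (Nat.card 𝔽) (d + 2 * k) (i + 2 * k) :=
      (C.pow L k i).restrict (fun x hx => h.mapsTo hx)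
    have hf : Function.Bijective f := by
      constructor
      · intro x y hxy
        apply Subtype.ext
        exact h.injOn x.2 y.2 (congrArg Subtype.val hxy)
      · intro y
        obtain ⟨x, hx, hxy⟩ := h.surjOn y.2
        exact ⟨⟨x, hx⟩, Subtype.ext hxy⟩
    exact (LinearEquiv.ofBijective f hf).finrank_eq
  have h2 : ∀ i < 2 * k, C.gr (Nat.card 𝔽) (d + 2 * k) i = ⊥ := by
    intro i hi
    unfold FrobeniusModules.gr
    rw [eq_bot_iff]
    refine iSup₂_le fun α hα => ?_
    by_cases h : (C.F i).HasEigenvalue α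
    · exfalso
      obtain ⟨w, hw, hw'⟩ := hC.weights i α h
      have := IsWeilNumber.unique (Finite.one_lt_card (α := 𝔽)) hα hw'
      omega
    · rw [genEig_eq_bot h]
  have h3 : vw C (m + 2 * k) (Nat.card 𝔽) (d + 2 * k) =
      ∑ i ∈ Finset.range (2 * k + m), (-1) ^ i *
        (finrank Ω (C.gr (Nat.card 𝔽) (d + 2 * k) i) : ℤ) := by
    unfold vw
    rw [add_comm m]
  rw [h3, Finset.sum_range_add]
  have h4 : ∑ i ∈ Finset.range (2 * k), (-1 : ℤ) ^ i *
        (finrank Ω (C.gr (Nat.card 𝔽) (d + 2 * k) i) : ℤ) = 0 := by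
    apply Finset.sum_eq_zero
    intro i hi
    rw [h2 i (Finset.mem_range.1 hi), finrank_bot]
    simp
  rw [h4, zero_add]
  unfold vw
  refine Finset.sum_congr rfl fun i _ => ?_
  rw [h1 i, add_comm (2 * k) i, pow_add, pow_mul]
  simp

/-- A variety of dimension `2 k` for which the number of points is a polynomial of degree `2 k`
without constant term does not have the curious Lefschetz property. -/
theorem not_curious (hC : IsCompactCohomology 𝔽 X C) (k : ℕ) (T : Finset ℕ) (c : ℕ → ℤ)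
    (hT : ∀ (E : Type) [Field E] [Finite E],
      (Nat.card (X E) : ℤ) = ∑ k ∈ T, c k * (Nat.card E : ℤ) ^ k)
    (h0 : 0 ∉ T) (hk : 2 * k ∈ T) (hck : c (2 * k) ≠ 0) :
    ¬ C.CuriousLefschetz (Nat.card 𝔽) (2 * k) := by
  intro hL
  obtain ⟨m, hm⟩ := hC.bounded
  have h1 := vw_symm hC hL hm k
  have hm' : ∀ i ≥ m + 2 * k, Subsingleton (C.H i) := fun i hi => hm i (by omega)
  have e1 : (((2 * k : ℕ) : ℤ) - 2 * (k : ℤ)) = 2 * 0 := by push_cast; ring
  have e2 : (((2 * k : ℕ) : ℤ) + 2 * (k : ℤ)) = 2 * ((2 * k : ℕ) : ℤ) := by push_cast; ring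
  rw [e1, e2, vw_formula hC hm T c hT, vw_formula hC hm' T c hT] at h1
  have h2 : T.filter (fun k : ℕ => (k : ℤ) = 0) = ∅ := by
    rw [Finset.filter_eq_empty_iff]
    intro j hj hj0
    have : j = 0 := by exact_mod_cast hj0
    exact h0 (this ▸ hj)
  have h3 : T.filter (fun j : ℕ => (j : ℤ) = ((2 * k : ℕ) : ℤ)) = {2 * k} := by
    ext j
    simp only [Finset.mem_filter, Finset.mem_singleton]
    constructor
    · rintro ⟨_, h⟩
      exact_mod_cast h
    · rintro rfl
      exact ⟨hk, rfl⟩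
  rw [h2, h3, Finset.sum_empty, Finset.sum_singleton] at h1
  exact hck h1.symm

theorem not_curious_U {n : ℕ} (hn : Even n) (hC : IsCompactCohomology 𝔽 (UPoints n) C) :
    ¬ C.CuriousLefschetz (Nat.card 𝔽) (n + 2) := by
  obtain ⟨l, rfl⟩ := hn
  have h := not_curious hC (l + 1) {1, l + l + 2} (fun _ => 1) (by
    intro E _ _
    rw [card_UPoints, Finset.sum_pair (by omega)]
    have : ((-1 : ℤ)) ^ (l + l) = 1 := by rw [← two_mul, pow_mul]; simp
    rw [this]
    ring) (by simp) (by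
      rw [Finset.mem_insert, Finset.mem_singleton]
      right
      ring) one_ne_zero
  rwa [show 2 * (l + 1) = l + l + 2 by ring] at h

theorem not_curious_Z {n : ℕ} (hn : Even n) (hC : IsCompactCohomology 𝔽 (ZPoints n) C) :
    ¬ C.CuriousLefschetz (Nat.card 𝔽) (n + 2) := by
  obtain ⟨l, rfl⟩ := hn
  have e : ((-1 : ℤ)) ^ (l + l) = 1 := by rw [← two_mul, pow_mul]; simp
  rcases Nat.eq_zero_or_pos l with rfl | hl
  · have h := not_curious hC 1 {1, 2} (fun _ => 2) (by
      intro E _ _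
      rw [card_ZPoints, Finset.sum_pair (by omega)]
      simp only [add_zero, pow_zero]
      ring) (by simp) (by simp) two_ne_zero
    exact h
  · have h := not_curious hC (l + 1) {1, 2, l + l + 1, l + l + 2} (fun _ => 1) (by
      intro E _ _
      rw [card_ZPoints, Finset.sum_insert (by simp; omega), Finset.sum_insert (by simp; omega),
        Finset.sum_pair (by omega), e]
      ring) (by simp) (by
        simp only [Finset.mem_insert, Finset.mem_singleton]
        right; right; right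
        ring) one_ne_zero
    rwa [show 2 * (l + 1) = l + l + 2 by ring] at h

end

end Pool.Agent.N177.CL
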