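import Pool.Agent.N177.CL.Gallery

/-!
# Unipotent elements of `SL_2` over a finite field and their fixed points
-/

set_option autoImplicit false

namespace Pool.Agent.N177.CL

open scoped LinearAlgebra.Projectivization MatrixGroups

variable {E : Type} [Field E]

theorem unip_iff (u : SL(2, E)) : IsUnipotent u ↔ u.1 0 0 + u.1 1 1 = 2 := by
  unfold IsUnipotent
  have hdet : u.1 0 0 * u.1 1 1 - u.1 0 1 * u.1 1 0 = 1 := by
    have := u.2
    rwa [Matrix.det_fin_two] at this
  constructor
  · intro h
    have h1 := (Matrix.isNilpotent_trace_of_isNilpotent h).eq_zero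
    rw [Matrix.trace_fin_two] at h1
    simp only [Matrix.sub_apply, Matrix.one_apply_eq] at h1
    linear_combination h1
  · intro h
    refine ⟨2, ?_⟩
    ext i j
    rw [pow_two, Matrix.mul_apply, Fin.sum_univ_two]
    fin_cases i <;> fin_cases j <;>
      simp only [Fin.mk_zero, Fin.mk_one, Fin.isValue, Matrix.sub_apply,
        Matrix.one_apply_eq, Matrix.zero_apply, Matrix.one_apply_ne, ne_eq, zero_ne_one,
        one_ne_zero, not_false_eq_true, sub_zero]
    · linear_combination u.1 0 0 * h - hdet
    · linear_combination u.1 0 1 * h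
    · linear_combination u.1 1 0 * h
    · linear_combination u.1 1 1 * h - hdet

theorem det_eq (u : SL(2, E)) : u.1 0 0 * u.1 1 1 - u.1 0 1 * u.1 1 0 = 1 := by
  have := u.2
  rwa [Matrix.det_fin_two] at this

theorem unip_conj (g u : SL(2, E)) : IsUnipotent (g⁻¹ * u * g) ↔ IsUnipotent u := by
  have key : ∀ g u : SL(2, E), IsUnipotent u → IsUnipotent (g⁻¹ * u * g) := by
    intro g u hu
    rw [unip_iff] at hu ⊢
    rw [← Matrix.trace_fin_two] at hu ⊢
    rw [Matrix.SpecialLinearGroup.coe_mul, Matrix.trace_mul_comm, ← Matrix.SpecialLinearGroup.coe_mul,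
      ← mul_assoc, mul_inv_cancel, one_mul]
    exact hu
  refine ⟨fun h => ?_, key g u⟩
  have := key g⁻¹ _ h
  rwa [inv_inv, mul_assoc, mul_assoc, mul_inv_cancel, mul_one, ← mul_assoc, mul_inv_cancel,
    one_mul] at this

/-- A unipotent element which fixes a line fixes its elements. -/
theorem fix_vec {u : SL(2, E)} (hu : IsUnipotent u) {v : Fin 2 → E} (hv : v ≠ 0)
    (h : u • Projectivization.mk E v hv = Projectivization.mk E v hv) :
    u.1.mulVec v = v := by
  rw [Projectivization.smul_mk, Projectivization.mk_eq_mk_iff'] at h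
  obtain ⟨a, ha⟩ := h
  have ha' : u.1.mulVec v = a • v := ha.symm
  obtain ⟨k, hk⟩ := hu
  have h1 : ∀ m : ℕ, (((u : Matrix (Fin 2) (Fin 2) E) - 1) ^ m).mulVec v = (a - 1) ^ m • v := by
    intro m
    induction m with
    | zero => simp
    | succ m ih =>
      rw [pow_succ, ← Matrix.mulVec_mulVec, Matrix.sub_mulVec, ha', Matrix.one_mulVec,
        show a • v - v = (a - 1) • v by rw [sub_smul, one_smul], Matrix.mulVec_smul, ih, smul_smul, ← pow_succ']
  have h2 := h1 k
  rw [hk, Matrix.zero_mulVec] at h2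
  have h3 : (a - 1) ^ k = 0 := by
    rcases smul_eq_zero.1 h2.symm with h | h
    · exact h
    · exact absurd h hv
  have h4 : a = 1 := by
    have := eq_zero_of_pow_eq_zero h3
    linear_combination this
  rw [ha', h4, one_smul]

/-- A unipotent element with two fixed points is trivial. -/
theorem eq_one_of_fix {u : SL(2, E)} (hu : IsUnipotent u) {x y : Flag E} (hxy : x ≠ y)
    (hx : u • x = x) (hy : u • y = y) : u = 1 := by
  induction x using Projectivization.ind with | _ v hv =>
  induction y using Projectivization.ind with | _ w hw =>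
  have h1 := fix_vec hu hv hx
  have h2 := fix_vec hu hw hy
  have hli : LinearIndependent E ![v, w] := by
    rw [LinearIndependent.pair_iff' hv]
    intro a ha
    apply hxy
    rw [Projectivization.mk_eq_mk_iff']
    have ha0 : a ≠ 0 := by
      rintro rfl
      rw [zero_smul] at ha
      exact hw ha.symm
    exact ⟨a⁻¹, by rw [← ha, smul_smul, inv_mul_cancel₀ ha0, one_smul]⟩
  have hsp : Submodule.span E (Set.range ![v, w]) = ⊤ := by
    apply hli.span_eq_top_of_card_eq_finrank'
    simp
  have h3 : Matrix.toLin' u.1 = Matrix.toLin' 1 := by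
    apply LinearMap.ext_on_range (v := ![v, w]) hsp
    intro i
    fin_cases i
    · simp [h1]
    · simp [h2]
  apply Subtype.ext
  exact Matrix.toLin'.injective h3

/-- the matrix with rows `(a, b)`, `(c, d)` -/
def mkSL (a b c d : E) (h : a * d - b * c = 1) : SL(2, E) :=
  ⟨!![a, b; c, d], by rw [Matrix.det_fin_two_of]; exact h⟩

theorem mkSL_unip (a b c d : E) (h : a * d - b * c = 1) (ht : a + d = 2) :
    IsUnipotent (mkSL a b c d h) := by
  rw [unip_iff]
  exact ht

variable (E) in
/-- the unipotent elements -/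
abbrev Unip : Type := {u : SL(2, E) // IsUnipotent u}

open Classical in
/-- parametrization of the unipotent elements -/
noncomputable def unipEquiv : Unip E ≃ E × E where
  toFun u := (u.1.1 0 1, if u.1.1 0 1 = 0 then u.1.1 1 0 else u.1.1 0 0 - 1)
  invFun p := if h : p.1 = 0 then
      ⟨mkSL 1 0 p.2 1 (by ring), mkSL_unip _ _ _ _ _ (by norm_num)⟩
    else ⟨mkSL (1 + p.2) p.1 (-(p.2 ^ 2 / p.1)) (1 - p.2) (by field_simp; ring),
      mkSL_unip _ _ _ _ _ (by ring)⟩
  left_inv u := by
    obtain ⟨u, hu⟩ := u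
    have h1 := (unip_iff u).1 hu
    have h2 := det_eq u
    apply Subtype.ext
    apply Subtype.ext
    by_cases h : u.1 0 1 = 0
    · simp only [h, ↓reduceIte, ↓reduceDIte]
      have h3 : (u.1 0 0 - 1) ^ 2 = 0 := by
        linear_combination u.1 0 0 * h1 - h2 - u.1 1 0 * h
      have h4 : u.1 0 0 = 1 := by
        have := eq_zero_of_pow_eq_zero h3
        linear_combination this
      ext i j
      fin_cases i <;> fin_cases j
      · simpa [mkSL] using h4.symm
      · simpa [mkSL] using h.symm
      · simp [mkSL]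
      · simp [mkSL]
        linear_combination h4 - h1
    · simp only [h, ↓reduceIte, ↓reduceDIte]
      ext i j
      fin_cases i <;> fin_cases j
      · simp [mkSL]
      · simp [mkSL]
      · simp [mkSL]
        field_simp
        linear_combination h2 - u.1 0 0 * h1
      · simp [mkSL]
        linear_combination -h1
  right_inv p := by
    obtain ⟨b, z⟩ := p
    by_cases h : b = 0
    · subst h
      simp [mkSL]
    · simp [h, mkSL]

theorem card_unip [Finite E] : Nat.card (Unip E) = Nat.card E ^ 2 := by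
  rw [Nat.card_congr unipEquiv, Nat.card_prod, pow_two]

/-- the line spanned by the first basis vector -/
noncomputable def e₁ : Flag E := Projectivization.mk E ![1, 0] (by
  intro h
  have := congrFun h 0
  simp at this)

theorem smul_e₁ (u : SL(2, E)) : u • (e₁ : Flag E) = e₁ ↔ u.1 1 0 = 0 := by
  unfold e₁
  rw [Projectivization.smul_mk, Projectivization.mk_eq_mk_iff']
  have h : u • ![(1 : E), 0] = ![u.1 0 0, u.1 1 0] := by
    change u.1.mulVec ![(1 : E), 0] = _
    ext i
    fin_cases i <;> simp [Matrix.mulVec, dotProduct, Fin.sum_univ_two]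
  rw [h]
  constructor
  · rintro ⟨a, ha⟩
    have := congrFun ha 1
    simpa using this.symm
  · intro h1
    refine ⟨u.1 0 0, ?_⟩
    ext i
    fin_cases i
    · simp
    · simpa using h1.symm

/-- the unipotent elements which fix a flag -/
abbrev UStab (x : Flag E) : Type := {u : Unip E // u.1 • x = x}

noncomputable def stabEquiv₁ : UStab (e₁ : Flag E) ≃ E where
  toFun u := u.1.1.1 0 1
  invFun b := ⟨⟨mkSL 1 b 0 1 (by ring), mkSL_unip _ _ _ _ _ (by norm_num)⟩, by
    rw [smul_e₁]; rfl⟩
  left_inv u := by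
    obtain ⟨⟨u, hu⟩, hx⟩ := u
    have h1 := (unip_iff u).1 hu
    have h2 := det_eq u
    have h := (smul_e₁ u).1 hx
    apply Subtype.ext
    apply Subtype.ext
    apply Subtype.ext
    have h3 : (u.1 0 0 - 1) ^ 2 = 0 := by
      linear_combination u.1 0 0 * h1 - h2 - u.1 0 1 * h
    have h4 : u.1 0 0 = 1 := by
      have := eq_zero_of_pow_eq_zero h3
      linear_combination this
    ext i j
    fin_cases i <;> fin_cases j
    · simpa [mkSL] using h4.symm
    · simp [mkSL]
    · simpa [mkSL] using h.symm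
    · simp [mkSL]
      linear_combination h4 - h1
  right_inv b := by simp [mkSL]

noncomputable def stabEquiv (g : SL(2, E)) (x y : Flag E) (h : g • x = y) : UStab y ≃ UStab x where
  toFun u := ⟨⟨g⁻¹ * u.1.1 * g, (unip_conj g _).2 u.1.2⟩, by
    change (g⁻¹ * u.1.1 * g) • x = x
    rw [mul_smul, mul_smul, h, u.2, ← h, inv_smul_smul]⟩
  invFun u := ⟨⟨g * u.1.1 * g⁻¹, by
    have := (unip_conj g⁻¹ u.1.1).2 u.1.2
    rwa [inv_inv] at this⟩, by
    change (g * u.1.1 * g⁻¹) • y = y
    rw [mul_smul, mul_smul, ← h, inv_smul_smul, u.2]⟩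
  left_inv u := by
    apply Subtype.ext
    apply Subtype.ext
    change g * (g⁻¹ * u.1.1 * g) * g⁻¹ = u.1.1
    group
  right_inv u := by
    apply Subtype.ext
    apply Subtype.ext
    change g⁻¹ * (g * u.1.1 * g⁻¹) * g = u.1.1
    group

theorem card_stab (x : Flag E) : Nat.card (UStab x) = Nat.card E := by
  obtain ⟨g, hg⟩ := MulAction.exists_smul_eq (SL(2, E)) (e₁ : Flag E) x
  rw [Nat.card_congr (stabEquiv g _ _ hg), Nat.card_congr stabEquiv₁]

theorem card_flag [Finite E] : Nat.card (Flag E) = Nat.card E + 1 :=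
  Projectivization.card_of_finrank_two _ _ (by simp)

theorem card_stab_two {x y : Flag E} (hxy : x ≠ y) :
    Nat.card {u : Unip E // u.1 • x = x ∧ u.1 • y = y} = 1 := by
  rw [Nat.card_eq_one_iff_unique]
  refine ⟨⟨fun a b => ?_⟩, ⟨⟨⟨1, ?_⟩, ?_⟩⟩⟩
  · apply Subtype.ext
    apply Subtype.ext
    rw [eq_one_of_fix a.1.2 hxy a.2.1 a.2.2, eq_one_of_fix b.1.2 hxy b.2.1 b.2.2]
  · rw [unip_iff]; simp; norm_num
  · simp

end Pool.Agent.N177.CL
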