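import Pool.Agent.N177.CL.Defs

/-!
# Virtual multiplicities of Frobenius eigenvalues from the trace formula
-/

set_option autoImplicit false

namespace Pool.Agent.N177.CL

open Module

section lin

variable {Ω : Type} [Field Ω] {V : Type} [AddCommGroup V] [Module Ω V] [FiniteDimensional Ω V]

/-- dimensions of independent families -/
theorem finrank_biSup {ι : Type} (N : ι → Submodule Ω V) (hN : iSupIndep N) (S : Finset ι) :
    finrank Ω (⨆ α ∈ S, N α : Submodule Ω V) = ∑ α ∈ S, finrank Ω (N α) := by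
  classical
  induction S using Finset.induction_on with
  | empty => simp
  | insert a S ha ih =>
    rw [Finset.sum_insert ha, ← ih, Finset.iSup_insert]
    have h1 := Submodule.finrank_sup_add_finrank_inf_eq (N a) (⨆ α ∈ S, N α)
    have h2 : N a ⊓ (⨆ α ∈ S, N α) = ⊥ := by
      have h3 := hN a
      rw [disjoint_iff] at h3
      rw [eq_bot_iff, ← h3]
      refine inf_le_inf_left _ ?_
      refine iSup₂_le fun α hα => ?_
      refine le_iSup₂_of_le α ?_ le_rfl
      rintro rfl
      exact ha hα
    rw [h2, finrank_bot, add_zero] at h1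
    exact h1

theorem trace_restrict_pow (f : End Ω V) (μ : Ω) (r : ℕ) :
    LinearMap.trace Ω (f.maxGenEigenspace μ)
      ((f ^ r).restrict (f.mapsTo_maxGenEigenspace_of_comm (Commute.self_pow f r) μ)) =
      μ ^ r * finrank Ω (f.maxGenEigenspace μ) := by
  induction r with
  | zero =>
    have : (f ^ 0).restrict (f.mapsTo_maxGenEigenspace_of_comm (Commute.self_pow f 0) μ) =
      LinearMap.id := by
      ext x
      rfl
    rw [this, LinearMap.trace_id, pow_zero, one_mul]
  | succ r ih =>
    have hf := f.mapsTo_maxGenEigenspace_of_comm (Commute.refl f) μ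
    have hg := f.mapsTo_maxGenEigenspace_of_comm (Commute.self_pow f r) μ
    have h1 : (f ^ (r + 1)).restrict
        (f.mapsTo_maxGenEigenspace_of_comm (Commute.self_pow f (r + 1)) μ) =
        (f ^ r).restrict hg ∘ₗ f.restrict hf := by
      ext x
      rfl
    have h2 : Commute ((f ^ r).restrict hg) (f.restrict hf) :=
      LinearMap.restrict_commute (Commute.pow_self f r) _ _
    have := f.isNilpotent_restrict_maxGenEigenspace_sub_algebraMap μ
    rw [h1, LinearMap.trace_comp_eq_mul_of_commute_of_isNilpotent μ h2 this, ih, pow_succ]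
    ring

variable [IsAlgClosed Ω]

theorem trace_pow_eq (f : End Ω V) (S : Finset Ω) (hS : ∀ μ, f.HasEigenvalue μ → μ ∈ S) (r : ℕ) :
    LinearMap.trace Ω V (f ^ r) = ∑ μ ∈ S, μ ^ r * finrank Ω (f.maxGenEigenspace μ) := by
  classical
  have hds := DirectSum.isInternal_submodule_of_iSupIndep_of_iSup_eq_top
    f.independent_maxGenEigenspace f.iSup_maxGenEigenspace_eq_top
  have h_fin : {μ | f.maxGenEigenspace μ ≠ ⊥}.Finite :=
    WellFoundedGT.finite_ne_bot_of_iSupIndep f.independent_maxGenEigenspace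
  rw [LinearMap.trace_eq_sum_trace_restrict' hds h_fin
    (fun μ => f.mapsTo_maxGenEigenspace_of_comm (Commute.self_pow f r) μ)]
  rw [Finset.sum_congr rfl fun μ _ => trace_restrict_pow f μ r]
  apply Finset.sum_subset
  · intro μ hμ
    rw [Set.Finite.mem_toFinset, Set.mem_setOf_eq] at hμ
    apply hS
    by_contra h
    apply hμ
    rw [Module.End.HasEigenvalue] at h
    by_contra h2
    exact h ((Module.End.hasUnifEigenvalue_iff_hasUnifEigenvalue_one (by simp)).1 h2)
  · intro μ _ hμ
    rw [Set.Finite.mem_toFinset, Set.mem_setOf_eq, not_not] at hμ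
    rw [hμ, finrank_bot]
    simp

end lin

/-- power sums determine the coefficients -/
theorem eq_zero_of_pow {Ω : Type} [Field Ω] (S : Finset Ω) (h0 : (0 : Ω) ∉ S) (a : Ω → Ω)
    (h : ∀ r : ℕ, 0 < r → ∑ α ∈ S, a α * α ^ r = 0) : ∀ α ∈ S, a α = 0 := by
  have hli : LinearIndependent Ω (fun α : Ω => ((powersHom Ω α : Multiplicative ℕ →* Ω) :
      Multiplicative ℕ → Ω)) :=
    (linearIndependent_monoidHom (Multiplicative ℕ) Ω).comp (fun α => powersHom Ω α)
      (powersHom Ω).injective
  have h1 := (linearIndependent_iff'.1 hli) S (fun α => a α * α) (by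
    ext r
    have := h (r.toAdd + 1) (Nat.succ_pos _)
    rw [Finset.sum_apply]
    simp only [Pi.smul_apply, powersHom_apply, smul_eq_mul, Pi.zero_apply]
    rw [← this]
    refine Finset.sum_congr rfl fun α _ => ?_
    rw [pow_succ]
    ring)
  intro α hα
  have h2 := h1 α hα
  rcases mul_eq_zero.1 h2 with h | h
  · exact h
  · exact absurd (h ▸ hα) h0

section weil

variable {Ω : Type} [Field Ω] [CharZero Ω]

theorem IsWeilNumber.ne_zero {q : ℕ} (hq : 0 < q) {w : ℤ} {α : Ω} (h : IsWeilNumber q w α) :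
    α ≠ 0 := by
  rintro rfl
  have h1 := h.2 0 (by simp)
  have h2 : (0 : ℝ) < (q : ℝ) ^ ((w : ℝ) / 2) := Real.rpow_pos_of_pos (by exact_mod_cast hq) _
  rw [norm_zero] at h1
  exact h2.ne h1

theorem isWeilNumber_pow {q : ℕ} (k : ℕ) : IsWeilNumber q (2 * (k : ℤ)) ((q : Ω) ^ k) := by
  have h : ((q : Ω) ^ k) = algebraMap ℚ Ω ((q : ℚ) ^ k) := by simp
  refine ⟨?_, fun z hz => ?_⟩
  · rw [h]
    exact isAlgebraic_algebraMap _
  · rw [h, minpoly.eq_X_sub_C] at hz
    simp only [Polynomial.aeval_sub, Polynomial.aeval_X, Polynomial.aeval_C] at hz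
    have hz' : z = ((q : ℝ) ^ k : ℝ) := by
      have := sub_eq_zero.1 hz
      rw [this]
      push_cast
      simp
    rw [hz', Complex.norm_real, Real.norm_of_nonneg (by positivity), ← Real.rpow_natCast]
    congr 1
    push_cast
    ring

theorem IsWeilNumber.unique {q : ℕ} (hq : 1 < q) {w w' : ℤ} {α : Ω} (h : IsWeilNumber q w α)
    (h' : IsWeilNumber q w' α) : w = w' := by
  have hi : IsIntegral ℚ α := h.1.isIntegral
  obtain ⟨z, hz⟩ := IsAlgClosed.exists_aeval_eq_zero ℂ (minpoly ℚ α) (minpoly.degree_pos hi).ne'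
  have h1 := (h.2 z hz).symm.trans (h'.2 z hz)
  have hq1 : (1 : ℝ) < q := by exact_mod_cast hq
  have h2 : (w : ℝ) / 2 = (w' : ℝ) / 2 := by
    have := Real.rpow_right_inj (by linarith) hq1.ne' |>.1 h1
    exact this
  have h3 : (w : ℝ) = w' := by linarith
  exact_mod_cast h3

end weil

end Pool.Agent.N177.CL
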